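import Mathlib

namespace Pool.Agent.Results.MP_2ca583_ag.NeverOrdinary

open Polynomial

/-- The Cartier-Manin matrix `(c_{ip-j})_{1 ≤ i, j ≤ g}` of `y^2 = f(x)`, where
`f^((p-1)/2) = ∑ c_n x^n` and `c_n = 0` for `n < 0`. -/
noncomputable def cartierManin {k : Type} [Field k] (p g : ℕ) (f : k[X]) :
    Matrix (Fin g) (Fin g) k := fun i j =>
  if j.val + 1 ≤ (i.val + 1) * p then (f ^ ((p - 1) / 2)).coeff ((i.val + 1) * p - (j.val + 1))
  else 0

theorem coeff_zero {k : Type} [Field k] (μ : k) (e N n : ℕ) (h1 : e < n) (h2 : n < N) :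
    (((X - C μ) * (X ^ N - 1) : k[X]) ^ e).coeff n = 0 := by
  obtain ⟨q, hq⟩ : (X ^ N : k[X]) ∣ (X ^ N - 1) ^ e - (-1) ^ e := by
    have := sub_dvd_pow_sub_pow (X ^ N - 1 : k[X]) (-1) e
    simpa using this
  have e1 : ((X - C μ) * (X ^ N - 1) : k[X]) ^ e =
      C ((-1) ^ e) * (X - C μ) ^ e + X ^ N * (q * (X - C μ) ^ e) := by
    rw [mul_pow, sub_eq_iff_eq_add.1 hq]
    simp only [map_pow, map_neg, map_one]
    ring
  rw [e1, coeff_add, coeff_C_mul, coeff_X_pow_mul', if_neg (by omega),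
    coeff_eq_zero_of_natDegree_lt, mul_zero, add_zero]
  rw [natDegree_pow, natDegree_X_sub_C]
  omega

theorem result (k : Type) [Field k] [IsAlgClosed k] (p : ℕ) [Fact p.Prime] [CharP k p]
    (hp : 2 < p) :
    ∃ g : ℕ, 1 ≤ g ∧ ∃ Λ : Finset k, Λ.card = 2 * g ∧
      ∀ μ : k, (cartierManin p g ((X - C μ) * ∏ l ∈ Λ, (X - C l))).det = 0 := by
  have hne : ((2 * (2 * p + 1) : ℕ) : k) ≠ 0 := by
    rw [Ne, CharP.cast_eq_zero_iff k p]
    intro h
    have hpp : p.Prime := Fact.out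
    rcases (Nat.Prime.dvd_mul hpp).1 h with h | h
    · exact absurd (Nat.le_of_dvd (by norm_num) h) (by omega)
    · have : p ∣ 1 := (Nat.dvd_add_right (Dvd.intro_left 2 rfl)).1 h
      exact absurd (Nat.le_of_dvd (by norm_num) this) (by omega)
  have : NeZero ((2 * (2 * p + 1) : ℕ) : k) := ⟨hne⟩
  have : NeZero (2 * (2 * p + 1)) := ⟨by omega⟩
  obtain ⟨ζ, hζ⟩ := HasEnoughRootsOfUnity.exists_primitiveRoot k (2 * (2 * p + 1))
  refine ⟨2 * p + 1, by omega, nthRootsFinset (2 * (2 * p + 1)) (1 : k),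
    hζ.card_nthRootsFinset, fun μ => ?_⟩
  rw [← X_pow_sub_one_eq_prod (by omega) hζ]
  refine Matrix.det_eq_zero_of_row_eq_zero ⟨2, by omega⟩ fun j => ?_
  have := j.2
  unfold cartierManin
  split_ifs with h
  · exact coeff_zero μ _ _ _ (by simp only; omega) (by simp only; omega)
  · rfl

end Pool.Agent.Results.MP_2ca583_ag.NeverOrdinary
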